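import Pool.Agent.H68.CapMain

/-!
Local preservation of a normalised symplectic capacity by a homeomorphism does not imply
global preservation, even for a bounded open set and for a uniform limit of symplectomorphisms.
-/

open scoped ENNReal
open Pool.Agent.H68.Cap

namespace Pool.Agent.Results.MP_cf1990_gt.LocalNotGlobal

/-- For `n = 1`, and for every `n` such that `R^{2n}` carries some normalised capacity, there are a
normalised capacity `c` on `R^{2n}`, a homeomorphism `φ` of `R^{2n}` which is a uniform limit of
symplectomorphisms and preserves the `c`-capacity of small open sets, and a bounded open set `V`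
with `c (φ (V)) < c (V) < ∞`. -/
theorem result (n : ℕ) [NeZero n]
    (hn : n = 1 ∨ ∃ c₀ : Set (E n) → ℝ≥0∞, IsNormalisedCapacity c₀) :
    ∃ (c : Set (E n) → ℝ≥0∞) (φ : E n ≃ₜ E n) (V : Set (E n)),
      IsNormalisedCapacity c ∧ IsUniformLimitOfSymplectomorphisms φ ∧
      PreservesSmallOpenSets c φ ∧ IsOpen V ∧ Bornology.IsBounded V ∧
      c (φ '' V) < c V ∧ c V < ⊤ := by
  have hns : NonSqueezing n := by
    rcases hn with h | ⟨c₀, h⟩
    · subst h
      exact nonSqueezing_one
    · exact nonSqueezing_of_capacity h
  obtain ⟨c, φ, V, h1, h2, h3, h4, h5, h6⟩ := main n hns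
  refine ⟨c, φ, V, h1, h2, h3, h4, h5, h6, ?_⟩
  obtain ⟨r, hr, hV⟩ := h5.subset_closedBall_lt 0 0
  have h7 := h1.mono V (Metric.closedBall 0 r) (Homeomorph.refl _) isSymp_refl (by simpa using hV)
  rw [h1.ball r hr] at h7
  exact h7.trans_lt ENNReal.ofReal_lt_top

end Pool.Agent.Results.MP_cf1990_gt.LocalNotGlobal
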